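import Pool.Agent.H83.BF.ClassFive

/-!
# Groups of exponent `3^k` in which conjugate pairs generate subgroups of class at most five
are locally finite
-/

set_option autoImplicit false

namespace Pool.Agent.Results.MP_47409b_al.ClassFivePairs

open Pool.Agent.H83.BF

/-- Let `G` be a group of exponent dividing `3 ^ k` in which, for all `x` and `g`, either the
subgroup generated by `x` and `g * x * g⁻¹` is nilpotent of class at most five, or the subgroup
generated by `x` and `g` is nilpotent of class at most six. Then `G` is locally finite. -/
theorem result (k : ℕ) (G : Type) [Group G] (hexp : ∀ g : G, g ^ (3 ^ k) = 1)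
    (hconj : ∀ x g : G, (Subgroup.closure {x, g * x * g⁻¹}).lowerCentralSeries 5 = ⊥ ∨
      (Subgroup.closure {x, g}).lowerCentralSeries 6 = ⊥)
    (s : Finset G) : Finite (Subgroup.closure (s : Set G)) := by
  refine main_three k hexp (fun x g => ?_) _ ⟨s, rfl⟩
  rcases hconj x g with h | h
  · exact h
  · exact class_six x g 4 h

end Pool.Agent.Results.MP_47409b_al.ClassFivePairs
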