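import Pool.Agent.H77.SP.Top

/-!
# `p`-groups, `p` odd, in which `u = [x, g]` and `u ^ x` commute modulo the normal closure of `x ^ p`,
are locally finite
-/

set_option autoImplicit false

open scoped commutatorElement

namespace Pool.Agent.Results.MP_47409b_al.ModuloPowers

/-- Let `p` be an odd prime and let `G` be a `p`-group (every element has order a power of `p`;
nothing is assumed about the exponent). Suppose that for all `x` and `g` the commutator of
`u = x⁻¹ g⁻¹ x g` and its conjugate `x⁻¹ u x` lies in the normal closure of `x ^ p` in `G`. Then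
every finitely generated subgroup of `G` is finite. -/
theorem result (p : ℕ) (hp : p.Prime) (hodd : p ≠ 2) (G : Type*) [Group G] (hG : IsPGroup p G)
    (h : ∀ x g : G, ⁅x⁻¹ * g⁻¹ * x * g, x⁻¹ * (x⁻¹ * g⁻¹ * x * g) * x⁆ ∈
      Subgroup.normalClosure {x ^ p})
    (s : Finset G) : Finite (Subgroup.closure (s : Set G)) :=
  Pool.Agent.H77.SP.main_SP hp hodd hG h s

end Pool.Agent.Results.MP_47409b_al.ModuloPowers
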