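import Pool.Agent.H83.BF.Local

/-!
# Groups of exponent `p^k` in which conjugate pairs generate finite groups with powerful power
subgroups are locally finite
-/

set_option autoImplicit false

namespace Pool.Agent.Results.MP_47409b_al.PowerfulPairs

open Pool.Agent.H83.BF

/-- Let `p` be an odd prime and `G` a group of exponent dividing `p ^ k`. Suppose that
* `p = 3` and `j = 1`, or every finitely generated subgroup `L` of `G` has finite
  quotient by its subgroup generated by `p ^ j`-th powers, and
* for all `x, g` the subgroup `K` generated by `x` and its conjugate `g * x * g⁻¹` is finite, and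
  the subgroup `P` of `K` generated by the `p ^ j`-th powers is powerful, that is, `⁅P, P⁆` lies
  in the subgroup generated by the `p`-th powers of `P`.
Then `G` is locally finite. -/
theorem result (p : ℕ) (hp : p.Prime) (h2 : 2 < p) (k j : ℕ) (G : Type) [Group G]
    (hexp : ∀ g : G, g ^ (p ^ k) = 1)
    (hfi : (p = 3 ∧ j = 1) ∨ ∀ L : Subgroup G, L.FG → (pw (p ^ j) L).relIndex L ≠ 0)
    (hconj : ∀ x g : G, Finite (Subgroup.closure {x, g * x * g⁻¹}) ∧
      ⁅pw (p ^ j) (Subgroup.closure {x, g * x * g⁻¹}),
        pw (p ^ j) (Subgroup.closure {x, g * x * g⁻¹})⁆ ≤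
        pw p (pw (p ^ j) (Subgroup.closure {x, g * x * g⁻¹})))
    (s : Finset G) : Finite (Subgroup.closure (s : Set G)) := by
  have : Fact p.Prime := ⟨hp⟩
  exact main (hp.odd_of_ne_two (by omega)) k j hexp hfi hconj _ ⟨s, rfl⟩

end Pool.Agent.Results.MP_47409b_al.PowerfulPairs
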