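import Pool.Agent.H59.RP.Top

/-!
# Groups whose two-generator subgroups are finite regular `p`-groups
-/

set_option autoImplicit false

open scoped commutatorElement

namespace Pool.Agent.Results.MP_47409b_al.RegularPairs

universe u

/-- Any two elements `x`, `y` generate a finite group. -/
def FinitePairs (G : Type u) [Group G] : Prop :=
  ∀ x y : G, Finite (Subgroup.closure {x, y})

/-- Any two elements `x`, `y` generate a finite regular `p`-group: `⟨x, y⟩` is a finite `p`-group and
`(x y) ^ p = x ^ p y ^ p d_1 ^ p ⋯ d_m ^ p` for some elements `d_i` of the commutator subgroup of `⟨x, y⟩`. -/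
def FiniteRegularPairs (p : ℕ) (G : Type u) [Group G] : Prop :=
  ∀ x y : G, Finite (Subgroup.closure {x, y}) ∧ IsPGroup p (Subgroup.closure {x, y}) ∧
    ∃ l : List G, (∀ d ∈ l, d ∈ ⁅Subgroup.closure {x, y}, Subgroup.closure {x, y}⁆) ∧
      (x * y) ^ p = x ^ p * y ^ p * (l.map (fun d => d ^ p)).prod

/-- For every `i` the elements `g` with `g ^ (p ^ i) = 1` are closed under products. -/
def Closed (p : ℕ) (G : Type u) [Group G] : Prop :=
  ∀ (i : ℕ) (x y : G), x ^ p ^ i = 1 → y ^ p ^ i = 1 → (x * y) ^ p ^ i = 1

/-- Every finitely generated subgroup is finite. -/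
def LocallyFinite (G : Type u) [Group G] : Prop :=
  ∀ s : Finset G, Finite (Subgroup.closure (s : Set G))

/-- `⁅u, u ^ x⁆` for `u = x⁻¹ g⁻¹ x g` and `u ^ x = x⁻¹ u x`. -/
def w {G : Type u} [Group G] (x g : G) : G :=
  ⁅x⁻¹ * g⁻¹ * x * g, x⁻¹ * (x⁻¹ * g⁻¹ * x * g) * x⁆

/-- Let `p` be an odd prime. (1) A `p`-group `G` with `Closed p G` is locally finite if `w x g` has order dividing `p ^ n`
whenever `x` and `g` have orders dividing `p ^ (n + 1)`, or if `w x g` lies in the subgroup generated by the `p`-th powers
of elements of `⟨x, g⟩` for all `x` and `g`, or if `p = 3`. (2) If any two elements of `G` generate a finite regular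
`p`-group, then `Closed p G`. (3) The following are equivalent: the binary finite groups of exponent `p` are locally
finite; the groups in which any two elements generate a finite regular `p`-group are locally finite; the binary finite
`p`-groups `G` with `Closed p G` are locally finite. -/
theorem result (p : ℕ) (hp : p.Prime) (hodd : p ≠ 2) :
    (∀ (G : Type u) [Group G], IsPGroup p G → Closed p G →
      ((∀ (n : ℕ) (x g : G), x ^ p ^ (n + 1) = 1 → g ^ p ^ (n + 1) = 1 → w x g ^ p ^ n = 1) ∨
        (∀ x g : G, w x g ∈ Subgroup.closure {y | ∃ z ∈ Subgroup.closure {x, g}, y = z ^ p}) ∨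
        p = 3) →
      LocallyFinite G) ∧
    (∀ (G : Type u) [Group G], FiniteRegularPairs p G → Closed p G) ∧
    List.TFAE [
      ∀ (G : Type u) [Group G], (∀ g : G, g ^ p = 1) → FinitePairs G → LocallyFinite G,
      ∀ (G : Type u) [Group G], FiniteRegularPairs p G → LocallyFinite G,
      ∀ (G : Type u) [Group G], IsPGroup p G → FinitePairs G → Closed p G → LocallyFinite G] := by
  refine ⟨?_, fun G _ hG => Pool.Agent.H59.RP.closed hp hG, ?_⟩
  · rintro G _ hP hC (h | h | h)
    · exact Pool.Agent.H59.RP.small_lf hp hodd hP hC h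
    · exact Pool.Agent.H59.RP.small_lf hp hodd hP hC (Pool.Agent.H59.RP.small_of hC h)
    · subst h
      exact Pool.Agent.H59.RP.three_lf hP hC
  · tfae_have 1 → 3 := by
      intro hB G _ hP hF hC
      exact Pool.Agent.H59.RP.reduce hB hP hC hF
    tfae_have 3 → 2 := by
      intro h G _ hG
      refine h G ?_ (fun x y => (hG x y).1) (Pool.Agent.H59.RP.closed hp hG)
      intro x
      obtain ⟨n, hn⟩ := (hG x x).2.1 ⟨x, Subgroup.subset_closure (by simp)⟩
      refine ⟨n, ?_⟩
      have h2 := congrArg (fun z : Subgroup.closure {x, x} => (z : G)) hn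
      simpa using h2
    tfae_have 2 → 1 := by
      intro h G _ he hF
      refine h G fun x y => ⟨hF x y, ?_, [], by simp, ?_⟩
      · intro z
        refine ⟨1, Subtype.ext ?_⟩
        rw [pow_one]
        exact he z
      · simp [he]
    tfae_finish

end Pool.Agent.Results.MP_47409b_al.RegularPairs
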